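import Pool.Agent.H22K.Upper

set_option autoImplicit false

/-!
# MP_ac5134: finite smoothness of the translates gains at most the factor `1/(k+1)`

Setting of Q1 in dimension `n = d + 1`: `N × ⋯ × N × N²` boxes dual to the caps of the paraboloid, any
number `≥ κ N^d` of caps with `σ/N`-separated centres `ω i` in the unit ball, arbitrary orthonormal
frames.  `LossAll d β` is the inequality of Q1 for ALL translates, all `p` in `[1, ∞]`, with the factor
`C N^(β+ε)` for every `ε > 0`; `LossAll d 0` is the statement of Q1 in dimension `n`.  `LossAlong φ β` is the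
same inequality only for the translates by `(N² ∇φ(ω i), 0)`, where `φ` is a fixed function.

For every `k` and `η > 0` there is ONE function `φ` of class `C^(k+1)`, smooth off the origin, supported
in the ball of radius `1/4`, with all derivatives of order at most `k + 1` bounded by `η`, such that for all
`|lam| ≤ 1/16` and all `β ≥ 0`
`LossAlong (lam |x|² + φ) (β / (k + 1)) → LossAll d β`.
In particular Q1 is equivalent to its special case for the translates given by the gradient of this one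
function, which is uniformly convex for `lam > 0`, `k ≥ 1` and small `η`.

Known (in the library, `SmoothTranslates`; here `upper`): for every `φ` of class `C^(k+1)` the inequality
holds with the loss exponent `4 / k`.  So this bound is of the right order unless Q1 is true; and Q1 is
equivalent (`criterion`) to a bound `δ_k / (k + 1)` with `liminf δ_k = 0`.
-/

open MeasureTheory Set Filter Topology ENNReal NNReal Metric

namespace Pool.Agent.Results.MP_ac5134_an.FiniteSmoothness

open Pool.Agent.H810R3.Tub Pool.Agent.K4H66.KG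

/-- The inequality of Q1 for the translates of the centred boxes by `(N² ∇φ(ω i), 0)`, with the factor
`C N ^ (β + ε)`, for every `ε > 0`; all exponents `p` in `[1, ∞]`, all systems of caps. -/
def LossAlong {d : ℕ} (φ : Vec d → ℝ) (β : ℝ) : Prop :=
  ∀ ε σ κ : ℝ, 0 < ε → 0 < σ → 0 < κ → ∃ C : ℝ, ∀ N : ℝ, 1 ≤ N → ∀ (ι : Type) [Fintype ι]
    (ω : ι → Vec d) (f : ι → Fin d → Space d), Caps σ κ N ω f →
      Ineq N (C * N ^ (β + ε)) ω f (fun i => WithLp.toLp 2 (N ^ 2 • gradient φ (ω i), (0 : ℝ)))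

/-- `φ` is of class `C ^ m` with all the derivatives of order at most `m` bounded by `η`, smooth off the
origin, and zero off the open ball of radius `1/4`. -/
def Small {d : ℕ} (m : ℕ) (η : ℝ) (φ : Vec d → ℝ) : Prop :=
  ContDiff ℝ (m : WithTop ℕ∞) φ ∧ (∀ l ≤ m, ∀ x, ‖iteratedFDeriv ℝ l φ x‖ ≤ η) ∧
    (∀ x, x ≠ 0 → ContDiffAt ℝ ((⊤ : ℕ∞) : WithTop ℕ∞) φ x) ∧ ∀ x, 1 / 4 ≤ ‖x‖ → φ x = 0

/-- **Finite smoothness of the translates gains at most the factor `1/(k+1)`.** -/
theorem result (d : ℕ) (hd : 1 ≤ d) (k : ℕ) (η : ℝ) (hη : 0 < η) :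
    ∃ φ : Vec d → ℝ, Small (k + 1) η φ ∧ ∀ lam : ℝ, |lam| ≤ 1 / 16 →
      (∀ β : ℝ, 0 ≤ β → LossAlong (fun x => lam * ‖x‖ ^ 2 + φ x) (β / (k + 1)) → LossAll d β) ∧
      (LossAlong (fun x => lam * ‖x‖ ^ 2 + φ x) 0 ↔ LossAll d 0) := by
  obtain ⟨φ, h1, h2, h3, h4, h5⟩ := Pool.Agent.H22K.universal (d := d) hd k hη
  refine ⟨φ, ⟨h1, h4, h2, h3⟩, fun lam hlam => ⟨fun β hβ => h5 β hβ lam hlam, fun h => ?_, fun h => ?_⟩⟩
  · apply h5 0 le_rfl lam hlam
    rwa [zero_div]
  · exact Pool.Agent.H22K.lossAlong_of_lossAll h _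

/-- Q1 is equivalent to a small loss for functions of finite smoothness. -/
theorem criterion (d : ℕ) (hd : 1 ≤ d) :
    LossAll d 0 ↔ ∀ δ : ℝ, 0 < δ → ∃ (k : ℕ) (η : ℝ), 0 < η ∧
      ∀ φ : Vec d → ℝ, Small (k + 1) η φ → LossAlong φ (δ / (k + 1)) := by
  refine ⟨fun h δ hδ => ?_, fun h => ?_⟩
  · refine ⟨0, 1, one_pos, fun φ _ => ?_⟩
    have h1 : (0 : ℝ) ≤ δ / ((0 : ℕ) + 1) := by positivity
    exact Pool.Agent.H22K.lossAlong_mono h1 (Pool.Agent.H22K.lossAlong_of_lossAll h φ)
  · apply Pool.Agent.H22K.lossAll_zero_of_forall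
    intro δ hδ
    obtain ⟨k, η, hη, hk⟩ := h δ hδ
    obtain ⟨φ, h1, h2⟩ := result d hd k η hη
    apply (h2 0 (by norm_num)).1 δ hδ.le
    have h3 : (fun x => (0 : ℝ) * ‖x‖ ^ 2 + φ x) = φ := by
      funext x
      rw [zero_mul, zero_add]
    rw [h3]
    exact hk φ h1

/-- The known bound. -/
theorem upper (d : ℕ) (hd : 1 ≤ d) (k : ℕ) (hk : 1 ≤ k) (φ : Vec d → ℝ)
    (hφ : ContDiff ℝ ((k + 1 : ℕ) : WithTop ℕ∞) φ) : LossAlong φ (4 / k) :=
  Pool.Agent.H22K.upper hd hk hφ

end Pool.Agent.Results.MP_ac5134_an.FiniteSmoothness
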